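import Mathlib

/-!
# The field of separated multiples and the orbits on a plane curve
-/

set_option autoImplicit false

namespace Pool.Agent.L0h92.Orb

open Polynomial Polynomial.Bivariate
open scoped LinearAlgebra.Projectivization

/-- The field `K(x, y)`, as the field of fractions of `K[X][Y]`. -/
abbrev KXY (K : Type*) [Field K] := FractionRing K[X][Y]

/-- `x` as an element of `K(x, y)`. -/
noncomputable def xx (K : Type*) [Field K] : KXY K := algebraMap K[X][Y] (KXY K) (C X)

/-- `y` as an element of `K(x, y)`. -/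
noncomputable def yy (K : Type*) [Field K] : KXY K := algebraMap K[X][Y] (KXY K) X

variable {K : Type*} [Field K]

/-- `⟨p⟩`: the `q ∈ K(x, y)` whose reduced denominator is not divisible by `p` and whose reduced
numerator is a multiple of `p`. -/
def multiples (p : K[X][Y]) : Set (KXY K) :=
  {q | ¬ p ∣ (IsFractionRing.den K[X][Y] q : K[X][Y]) ∧ p ∣ IsFractionRing.num K[X][Y] q}

/-- `F(p)`: the pairs `(f, g) ∈ K(x) × K(y)` with `f - g ∈ ⟨p⟩`. -/
def sepMult (p : K[X][Y]) : Set (KXY K × KXY K) :=
  {fg | fg.1 ∈ IntermediateField.adjoin K {xx K} ∧ fg.2 ∈ IntermediateField.adjoin K {yy K} ∧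
    fg.1 - fg.2 ∈ multiples p}

/-- `F(p)` consists only of the constant pairs `(c, c)`. -/
def SepTrivial (p : K[X][Y]) : Prop :=
  ∀ fg ∈ sepMult p, ∃ c : K, fg = (algebraMap K (KXY K) c, algebraMap K (KXY K) c)

/-- The degree in `x`. -/
noncomputable def degX (p : K[X][Y]) : ℕ := (Bivariate.swap p).natDegree

/-- The degree in `y`. -/
noncomputable def degY (p : K[X][Y]) : ℕ := p.natDegree

/-- The bihomogenization `x₀ ^ deg_x p * y₀ ^ deg_y p * p(x₁ / x₀, y₁ / y₀)` at `u = (x₀, x₁)`,
`w = (y₀, y₁)`. -/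
noncomputable def bihom (p : K[X][Y]) (u w : Fin 2 → K) : K :=
  ∑ j ∈ Finset.range (degY p + 1), ∑ i ∈ Finset.range (degX p + 1),
    (p.coeff j).coeff i * (u 0 ^ (degX p - i) * u 1 ^ i) * (w 0 ^ (degY p - j) * w 1 ^ j)

/-- The curve `C` in `ℙ¹ × ℙ¹`. -/
def curve (p : K[X][Y]) : Set (ℙ K (Fin 2 → K) × ℙ K (Fin 2 → K)) :=
  {z | bihom p z.1.rep z.2.rep = 0}

/-- Two points of `C` with the same first or the same second coordinate. -/
def Linked (p : K[X][Y]) (z w : curve p) : Prop := z.1.1 = w.1.1 ∨ z.1.2 = w.1.2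

/-- The orbit of a point: all points which are reachable by finitely many moves. -/
def orbit (p : K[X][Y]) (z : curve p) : Set (curve p) := {w | Relation.ReflTransGen (Linked p) z w}

end Pool.Agent.L0h92.Orb
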