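import Pool.Agent.L0h92.Orb.Val
import Pool.Agent.L0h92.Orb.Defs

/-!
# Two finite correspondences give a separated multiple
-/

set_option autoImplicit false

namespace Pool.Agent.L0h92.Orb

open Polynomial Polynomial.Bivariate

variable {K : Type*} [Field K]

lemma card_fiber [IsAlgClosed K] [DecidableEq K] {Q : K[X][Y]} {A B : Finset K} (h : Pair Q A B)
    {α : K} (hα : α ∈ A) :
    (B.filter fun β => (Q.map (evalRingHom α)).eval β = 0).card = Q.natDegree := by
  have h0 := fiber_ne_zero (h.lead α hα)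
  have h1 : (B.filter fun β => (Q.map (evalRingHom α)).eval β = 0) =
      (Q.map (evalRingHom α)).roots.toFinset := by
    ext β
    rw [Finset.mem_filter, Multiset.mem_toFinset, mem_roots h0]
    exact ⟨fun h => h.2, fun h' => ⟨h.left α hα β h', h'⟩⟩
  have h2 : (Q.map (evalRingHom α)).roots.Nodup := by
    rw [Multiset.nodup_iff_count_le_one]
    intro β
    rw [count_roots]
    by_contra hlt
    push Not at hlt
    obtain ⟨h3, h4⟩ := (one_lt_rootMultiplicity_iff_isRoot h0).mp hlt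
    exact h.simple α hα β h3 h4
  rw [h1, Multiset.toFinset_card_of_nodup h2, ← (IsAlgClosed.splits _).natDegree_eq_card_roots,
    natDegree_fiber (h.lead α hα)]

lemma Pair.card [IsAlgClosed K] {Q : K[X][Y]} {A B : Finset K} (h : Pair Q A B) :
    A.card * Q.natDegree = B.card * (Bivariate.swap Q).natDegree := by
  classical
  have h1 := Finset.sum_card_bipartiteAbove_eq_sum_card_bipartiteBelow (s := A) (t := B)
    (fun α β => (Q.map (evalRingHom α)).eval β = 0)
  have h2 : ∀ α ∈ A, (B.bipartiteAbove (fun α β => (Q.map (evalRingHom α)).eval β = 0) α).card =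
      Q.natDegree := fun α hα => card_fiber h hα
  have h3 : ∀ β ∈ B, (A.bipartiteBelow (fun α β => (Q.map (evalRingHom α)).eval β = 0) β).card =
      (Bivariate.swap Q).natDegree := by
    intro β hβ
    rw [← card_fiber h.swap hβ]
    unfold Finset.bipartiteBelow
    simp only [eval_fiber_swap]
  rw [Finset.sum_congr rfl h2, Finset.sum_congr rfl h3, Finset.sum_const, Finset.sum_const,
    smul_eq_mul, smul_eq_mul] at h1
  exact h1

lemma not_dvd_C {p : K[X][Y]} (hy : p ∉ Set.range (C : K[X] → K[X][Y])) {q : K[X]} (hq : q ≠ 0) :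
    ¬ p ∣ C q := by
  intro h
  have h1 := natDegree_le_of_dvd h (C_ne_zero.mpr hq)
  rw [natDegree_C] at h1
  exact hy ⟨p.coeff 0, (eq_C_of_natDegree_le_zero h1).symm⟩

lemma not_dvd_map_C {p : K[X][Y]} (hx : p ∉ Set.range (Polynomial.map C : K[X] → K[X][Y]))
    {q : K[X]} (hq : q ≠ 0) : ¬ p ∣ q.map C := by
  intro h
  have h1 : Bivariate.swap p ∣ C q := by
    have := map_dvd (Bivariate.swap (R := K)) h
    rwa [Bivariate.swap_map_C] at this
  refine not_dvd_C ?_ hq h1
  rintro ⟨r, hr⟩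
  apply hx
  refine ⟨r, ?_⟩
  rw [← Bivariate.swap_C, hr, Bivariate.swap_swap_apply]

/-- `∏ (X - α)` -/
noncomputable def PA (A : Finset K) : K[X] := ∏ α ∈ A, (X - C α)

lemma PA_ne_zero (A : Finset K) : PA A ≠ 0 := (monic_prod_X_sub_C _ _).ne_zero

lemma aeval_PA {L : Type*} [Field L] [Algebra K L] (x : L) (A : Finset K) :
    aeval x (PA A) = prodAt x A := by
  unfold PA prodAt
  rw [map_prod]
  simp

lemma eval_PA_eq_zero {A : Finset K} {α : K} : (PA A).eval α = 0 ↔ α ∈ A := by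
  unfold PA
  rw [eval_prod, Finset.prod_eq_zero_iff]
  simp [sub_eq_zero]

lemma mem_multiples {p : K[X][Y]} (hp : Prime p) {r s : K[X][Y]} (hr : p ∣ r) (hs : ¬ p ∣ s) :
    algebraMap K[X][Y] (KXY K) r / algebraMap K[X][Y] (KXY K) s ∈ multiples p := by
  set q := algebraMap K[X][Y] (KXY K) r / algebraMap K[X][Y] (KXY K) s with hq
  have hs0 : s ≠ 0 := by
    rintro rfl
    exact hs (dvd_zero _)
  have hinj : Function.Injective (algebraMap K[X][Y] (KXY K)) :=
    IsFractionRing.injective K[X][Y] (KXY K)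
  have hs0' : algebraMap K[X][Y] (KXY K) s ≠ 0 := by
    intro h
    exact hs0 (hinj (by rw [h, map_zero]))
  have hd0 : (IsFractionRing.den K[X][Y] q : K[X][Y]) ≠ 0 :=
    nonZeroDivisors.ne_zero (IsFractionRing.den K[X][Y] q).2
  have hd0' : algebraMap K[X][Y] (KXY K) (IsFractionRing.den K[X][Y] q : K[X][Y]) ≠ 0 := by
    intro h
    exact hd0 (hinj (by rw [h, map_zero]))
  have h1 : IsFractionRing.num K[X][Y] q * s = r * (IsFractionRing.den K[X][Y] q : K[X][Y]) := by
    apply hinj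
    rw [map_mul, map_mul]
    have h2 := IsFractionRing.mk'_num_den' K[X][Y] q
    rw [hq, div_eq_div_iff hd0' hs0'] at h2
    exact h2
  have hrel := IsFractionRing.num_den_reduced K[X][Y] q
  have h2 : (IsFractionRing.den K[X][Y] q : K[X][Y]) ∣ s := by
    refine hrel.symm.dvd_of_dvd_mul_left ?_
    rw [h1]
    exact dvd_mul_left _ _
  refine ⟨fun h => hs (h.trans h2), ?_⟩
  have h3 : p ∣ IsFractionRing.num K[X][Y] q * s := by
    rw [h1]
    exact Dvd.dvd.mul_right hr _
  exact (hp.dvd_or_dvd h3).resolve_right hs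

lemma mem_adjoin_of_algHom (ψ : K[X] →ₐ[K] KXY K) (q : K[X]) :
    ψ q ∈ IntermediateField.adjoin K {ψ X} := by
  have h1 : ψ q = aeval (ψ X) q := by
    rw [aeval_algHom_apply, aeval_X_left_apply]
  rw [h1]
  exact IntermediateField.algebra_adjoin_le_adjoin K _ (aeval_mem_adjoin_singleton K _)

lemma mem_adjoin_x (q : K[X]) :
    algebraMap K[X][Y] (KXY K) (C q) ∈ IntermediateField.adjoin K {xx K} :=
  mem_adjoin_of_algHom ((IsScalarTower.toAlgHom K K[X][Y] (KXY K)).comp
    (CAlgHom (R := K) (A := K[X]))) q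

lemma mem_adjoin_y (q : K[X]) :
    algebraMap K[X][Y] (KXY K) (q.map C) ∈ IntermediateField.adjoin K {yy K} := by
  have h1 := mem_adjoin_of_algHom ((IsScalarTower.toAlgHom K K[X][Y] (KXY K)).comp
    (mapAlgHom (CAlgHom (R := K) (A := K)))) q
  have h2 : ((IsScalarTower.toAlgHom K K[X][Y] (KXY K)).comp
    (mapAlgHom (CAlgHom (R := K) (A := K)))) X = yy K := by
    change algebraMap K[X][Y] (KXY K) (Polynomial.map _ X) = _
    rw [Polynomial.map_X]
    rfl
  rw [h2] at h1
  have h3 : ((IsScalarTower.toAlgHom K K[X][Y] (KXY K)).comp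
    (mapAlgHom (CAlgHom (R := K) (A := K)))) q = algebraMap K[X][Y] (KXY K) (q.map C) := by
    rw [AlgHom.comp_apply]
    rfl
  rw [h3] at h1
  exact h1

/-- Two disjoint pairs of finite sets give a nonconstant separated multiple. -/
theorem not_sepTrivial [IsAlgClosed K] {p : K[X][Y]} (hp : Irreducible p)
    (hx : p ∉ Set.range (Polynomial.map C : K[X] → K[X][Y]))
    (hy : p ∉ Set.range (C : K[X] → K[X][Y])) {A₁ B₁ A₂ B₂ : Finset K} (h₁ : Pair p A₁ B₁)
    (h₂ : Pair p A₂ B₂) (hA₁ : A₁.Nonempty) (hA₂ : A₂.Nonempty) (hdisj : Disjoint A₁ A₂) :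
    ¬ SepTrivial p := by
  have hprime : Prime p := hp.prime
  set I : Ideal K[X][Y] := Ideal.span {p} with hI
  have hIp : I.IsPrime := (Ideal.span_singleton_prime hp.ne_zero).mpr hprime
  set L := FractionRing (K[X][Y] ⧸ I) with hL
  set φ : K[X][Y] →ₐ[K] L := (IsScalarTower.toAlgHom K (K[X][Y] ⧸ I) L).comp
    (Ideal.Quotient.mkₐ K I) with hφ
  have hφ0 : ∀ q, φ q = 0 ↔ p ∣ q := by
    intro q
    rw [hφ, AlgHom.comp_apply]
    have h1 : (IsScalarTower.toAlgHom K (K[X][Y] ⧸ I) L) (Ideal.Quotient.mkₐ K I q) =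
        algebraMap (K[X][Y] ⧸ I) L (Ideal.Quotient.mk I q) := rfl
    rw [h1, map_eq_zero_iff _ (IsFractionRing.injective (K[X][Y] ⧸ I) L),
      Ideal.Quotient.eq_zero_iff_mem, hI, Ideal.mem_span_singleton]
  set x : L := φ (C X) with hxL
  set y : L := φ X with hyL
  have hφe : ∀ q, aevalAeval x y q = φ q := by
    intro q
    have h1 : (aevalAevalEquiv K L) ((aevalAevalEquiv K L).symm φ) = φ :=
      Equiv.apply_symm_apply _ _
    have h2 : aevalAeval x y = φ := h1
    rw [h2]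
  have hQ : aevalAeval x y p = 0 := by rw [hφe, hφ0]
  have hCx : ∀ q : K[X], φ (C q) = aeval x q := by
    intro q
    rw [← hφe, aevalAeval_C]
  have hCy : ∀ q : K[X], φ (q.map C) = aeval y q := by
    intro q
    rw [← hφe, ← Bivariate.swap_C, Bivariate.aevalAeval_swap, aevalAeval_C]
  have hnx : ∀ A : Finset K, prodAt x A ≠ 0 := by
    intro A h
    rw [← aeval_PA, ← hCx, hφ0] at h
    exact not_dvd_C hy (PA_ne_zero A) h
  have hny : ∀ A : Finset K, prodAt y A ≠ 0 := by
    intro A h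
    rw [← aeval_PA, ← hCy, hφ0] at h
    exact not_dvd_map_C hx (PA_ne_zero A) h
  set b := p.natDegree with hb
  set a := (Bivariate.swap p).natDegree with ha
  have hb0 : b ≠ 0 := by
    intro h
    exact hy ⟨p.coeff 0, (eq_C_of_natDegree_le_zero h.le).symm⟩
  have ha0 : a ≠ 0 := by
    intro h
    apply hx
    refine ⟨(Bivariate.swap p).coeff 0, ?_⟩
    rw [← Bivariate.swap_C, ← eq_C_of_natDegree_le_zero h.le, Bivariate.swap_swap_apply]
  have hc₁ : A₁.card * b = B₁.card * a := h₁.card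
  have hc₂ : A₂.card * b = B₂.card * a := h₂.card
  have hD0 : prodAt x A₂ ^ (A₁.card * b) * prodAt y B₁ ^ (B₂.card * a) ≠ 0 :=
    mul_ne_zero (pow_ne_zero _ (hnx _)) (pow_ne_zero _ (hny _))
  obtain ⟨c, hc⟩ := exists_const (K := K) (w := prodAt x A₁ ^ (A₂.card * b) *
    prodAt y B₂ ^ (B₁.card * a) / (prodAt x A₂ ^ (A₁.card * b) *
      prodAt y B₁ ^ (B₂.card * a))) (by
    intro V hV
    rw [map_div₀, hV.main hQ h₁ h₂ hc₁ hc₂, div_self]
    rwa [Valuation.ne_zero_iff])
  rw [div_eq_iff hD0] at hc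
  set G : K[X][Y] := C (PA A₁) ^ (A₂.card * b) * ((PA B₂).map C) ^ (B₁.card * a) -
    C (C c) * (C (PA A₂) ^ (A₁.card * b) * ((PA B₁).map C) ^ (B₂.card * a)) with hG
  have hpG : p ∣ G := by
    rw [← hφ0, hG, map_sub, map_mul, map_mul, map_mul, map_pow, map_pow, map_pow, map_pow, hCx,
      hCx, hCx, hCy, hCy, aeval_PA, aeval_PA, aeval_PA, aeval_PA, aeval_C, hc, sub_self]
  set ψ := algebraMap K[X][Y] (KXY K) with hψ
  have hinj : Function.Injective ψ := IsFractionRing.injective K[X][Y] (KXY K)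
  have hψ0 : ∀ q, q ≠ 0 → ψ q ≠ 0 := fun q hq h => hq (hinj (by rw [h, map_zero]))
  set f : KXY K := ψ (C (PA A₁)) ^ (A₂.card * b) / ψ (C (PA A₂)) ^ (A₁.card * b) with hf
  set g : KXY K := ψ (C (C c)) * ψ ((PA B₁).map C) ^ (B₂.card * a) /
    ψ ((PA B₂).map C) ^ (B₁.card * a) with hg
  have hfx : f ∈ IntermediateField.adjoin K {xx K} :=
    div_mem (pow_mem (mem_adjoin_x _) _) (pow_mem (mem_adjoin_x _) _)
  have hgy : g ∈ IntermediateField.adjoin K {yy K} := by
    refine div_mem (mul_mem ?_ (pow_mem (mem_adjoin_y _) _)) (pow_mem (mem_adjoin_y _) _)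
    have := mem_adjoin_y (K := K) (C c)
    rwa [Polynomial.map_C] at this
  have hPAx : ∀ A : Finset K, (C (PA A) : K[X][Y]) ≠ 0 := fun A => C_ne_zero.mpr (PA_ne_zero A)
  have hPAy : ∀ A : Finset K, ((PA A).map C : K[X][Y]) ≠ 0 := fun A =>
    (Polynomial.map_ne_zero_iff C_injective).mpr (PA_ne_zero A)
  have hfg : f - g = ψ G / ψ (C (PA A₂) ^ (A₁.card * b) * ((PA B₂).map C) ^ (B₁.card * a)) := by
    have e1 := hψ0 _ (hPAx A₂)
    have e2 := hψ0 _ (hPAy B₂)
    rw [hf, hg, hG, map_sub, map_mul, map_mul, map_mul, map_mul, map_pow, map_pow, map_pow,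
      map_pow]
    field_simp
  have hmem : (f, g) ∈ sepMult p := by
    refine ⟨hfx, hgy, ?_⟩
    change f - g ∈ multiples p
    rw [hfg]
    refine mem_multiples hprime hpG ?_
    intro h
    rcases hprime.dvd_or_dvd h with h | h
    · exact not_dvd_C hy (PA_ne_zero A₂) (hprime.dvd_of_dvd_pow h)
    · exact not_dvd_map_C hx (PA_ne_zero B₂) (hprime.dvd_of_dvd_pow h)
  intro htriv
  obtain ⟨c', hc'⟩ := htriv _ hmem
  have hf' : f = algebraMap K (KXY K) c' := congrArg Prod.fst hc'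
  have h3 : C (PA A₁ ^ (A₂.card * b)) = (C (C c' * PA A₂ ^ (A₁.card * b)) : K[X][Y]) := by
    apply hinj
    rw [hf, div_eq_iff (pow_ne_zero _ (hψ0 _ (hPAx A₂)))] at hf'
    rw [C_pow, map_pow, C_mul, C_pow, map_mul, map_pow, hf']
    rfl
  have h4 := C_injective h3
  obtain ⟨α, hα⟩ := hA₁
  have h5 := congrArg (eval α) h4
  have h6 : (PA A₁).eval α = 0 := eval_PA_eq_zero.mpr hα
  have h7 : (PA A₂).eval α ≠ 0 := fun h => Finset.disjoint_left.mp hdisj hα (eval_PA_eq_zero.mp h)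
  rw [eval_pow, h6, zero_pow (mul_ne_zero (Finset.card_ne_zero.mpr hA₂) hb0), eval_mul, eval_C,
    eval_pow] at h5
  have h8 : c' = 0 := by
    rcases mul_eq_zero.mp h5.symm with h | h
    · exact h
    · exact absurd h (pow_ne_zero _ h7)
  rw [h8, C_0, zero_mul] at h4
  exact pow_ne_zero _ (PA_ne_zero A₁) h4

end Pool.Agent.L0h92.Orb
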