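import Pool.Agent.L0h92.Orb.Core

/-!
# Finite orbits
-/

set_option autoImplicit false

namespace Pool.Agent.L0h92.Orb

open Polynomial Polynomial.Bivariate
open scoped LinearAlgebra.Projectivization

variable {K : Type*} [Field K]

lemma coeff_coeff_swap (p : K[X][Y]) (i j : ℕ) :
    ((Bivariate.swap p).coeff i).coeff j = (p.coeff j).coeff i := by
  induction p using Polynomial.induction_on' with
  | add p q hp hq => rw [map_add, coeff_add, coeff_add, coeff_add, coeff_add, hp, hq]
  | monomial n a =>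
    induction a using Polynomial.induction_on' with
    | add a b ha hb =>
      rw [map_add, map_add, coeff_add, coeff_add, coeff_add, coeff_add, ha, hb]
    | monomial m r =>
      rw [Bivariate.swap_monomial_monomial, coeff_monomial, coeff_monomial]
      split_ifs with h1 h2 h2
      · rw [coeff_monomial, coeff_monomial, if_pos h2, if_pos h1]
      · rw [coeff_monomial, if_neg h2, coeff_zero]
      · rw [coeff_monomial, if_neg h1, coeff_zero]
      · rw [coeff_zero, coeff_zero]

lemma natDegree_coeff_le (p : K[X][Y]) (j : ℕ) : (p.coeff j).natDegree ≤ degX p := by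
  rw [natDegree_le_iff_coeff_eq_zero]
  intro i hi
  rw [← coeff_coeff_swap, coeff_eq_zero_of_natDegree_lt hi, coeff_zero]

lemma degX_swap (p : K[X][Y]) : degX (Bivariate.swap p) = degY p := by
  unfold degX degY
  rw [Bivariate.swap_swap_apply]

lemma degY_swap (p : K[X][Y]) : degY (Bivariate.swap p) = degX p := rfl

lemma bihom_swap (p : K[X][Y]) (u w : Fin 2 → K) :
    bihom (Bivariate.swap p) w u = bihom p u w := by
  unfold bihom
  rw [Finset.sum_comm, degX_swap, degY_swap]
  refine Finset.sum_congr rfl fun j _ => Finset.sum_congr rfl fun i _ => ?_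
  rw [coeff_coeff_swap]
  ring

lemma bihom_smul (p : K[X][Y]) (u w : Fin 2 → K) (c d : K) :
    bihom p (c • u) (d • w) = c ^ degX p * d ^ degY p * bihom p u w := by
  unfold bihom
  rw [Finset.mul_sum]
  refine Finset.sum_congr rfl fun j hj => ?_
  rw [Finset.mul_sum]
  refine Finset.sum_congr rfl fun i hi => ?_
  have h1 : c ^ degX p = c ^ (degX p - i) * c ^ i := by
    rw [← pow_add, Nat.sub_add_cancel (by have := Finset.mem_range.mp hi; omega)]
  have h2 : d ^ degY p = d ^ (degY p - j) * d ^ j := by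
    rw [← pow_add, Nat.sub_add_cancel (by have := Finset.mem_range.mp hj; omega)]
  simp only [Pi.smul_apply, smul_eq_mul, mul_pow]
  rw [h1, h2]
  ring

lemma mk_mem_curve (p : K[X][Y]) {u w : Fin 2 → K} (hu : u ≠ 0) (hw : w ≠ 0) :
    (Projectivization.mk K u hu, Projectivization.mk K w hw) ∈ curve p ↔ bihom p u w = 0 := by
  obtain ⟨c, hc⟩ := Projectivization.exists_smul_eq_mk_rep K u hu
  obtain ⟨d, hd⟩ := Projectivization.exists_smul_eq_mk_rep K w hw
  unfold curve
  rw [Set.mem_ofPred_eq]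
  simp only
  rw [← hc, ← hd, Units.smul_def, Units.smul_def, bihom_smul]
  simp

/-- the point `[1 : α]` -/
def pt (α : K) : ℙ K (Fin 2 → K) :=
  Projectivization.mk K ![1, α] (fun h => one_ne_zero (congrFun h 0))

variable (K) in
/-- the point `[0 : 1]` -/
def inf : ℙ K (Fin 2 → K) :=
  Projectivization.mk K ![0, 1] (fun h => one_ne_zero (congrFun h 1))

lemma eq_inf_or_pt (P : ℙ K (Fin 2 → K)) : P = inf K ∨ ∃ α, P = pt α := by
  induction P using Projectivization.ind with
  | h u hu =>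
    by_cases h0 : u 0 = 0
    · left
      unfold inf
      rw [Projectivization.mk_eq_mk_iff']
      refine ⟨u 1, ?_⟩
      ext i
      fin_cases i
      · simp [h0]
      · simp
    · right
      refine ⟨u 1 / u 0, ?_⟩
      unfold pt
      rw [Projectivization.mk_eq_mk_iff']
      refine ⟨u 0, ?_⟩
      ext i
      fin_cases i
      · simp
      · simp; field_simp

lemma bihom_pt_pt (p : K[X][Y]) (α β : K) :
    bihom p ![1, α] ![1, β] = (p.map (evalRingHom α)).eval β := by
  unfold bihom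
  rw [eval_map, eval₂_eq_sum_range]
  refine Finset.sum_congr rfl fun j _ => ?_
  rw [coe_evalRingHom, eval_eq_sum_range' (Nat.lt_succ_of_le (natDegree_coeff_le p j)),
    Finset.sum_mul]
  refine Finset.sum_congr rfl fun i _ => ?_
  simp

lemma bihom_pt_inf (p : K[X][Y]) (α : K) :
    bihom p ![1, α] ![0, 1] = p.leadingCoeff.eval α := by
  unfold bihom
  rw [Finset.sum_eq_single (degY p)]
  · rw [leadingCoeff, eval_eq_sum_range' (Nat.lt_succ_of_le (natDegree_coeff_le p _))]
    refine Finset.sum_congr rfl fun i _ => ?_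
    simp [degY]
  · intro j hj hne
    refine Finset.sum_eq_zero fun i _ => ?_
    have h1 : degY p - j ≠ 0 := by
      have := Finset.mem_range.mp hj
      omega
    simp [zero_pow h1]
  · intro h
    exact absurd (Finset.mem_range.mpr (Nat.lt_succ_self _)) h

lemma pt_pt_mem {p : K[X][Y]} {α β : K} :
    (pt α, pt β) ∈ curve p ↔ (p.map (evalRingHom α)).eval β = 0 := by
  unfold pt
  rw [mk_mem_curve, bihom_pt_pt]

lemma pt_inf_mem {p : K[X][Y]} {α : K} :
    (pt α, inf K) ∈ curve p ↔ p.leadingCoeff.eval α = 0 := by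
  unfold pt inf
  rw [mk_mem_curve, bihom_pt_inf]

lemma swap_mem {p : K[X][Y]} {P Q : ℙ K (Fin 2 → K)} :
    (Q, P) ∈ curve (Bivariate.swap p) ↔ (P, Q) ∈ curve p := by
  unfold curve
  rw [Set.mem_ofPred_eq, Set.mem_ofPred_eq]
  simp only
  rw [bihom_swap]

lemma fiber_poly_ne_zero {p : K[X][Y]} (hp : Irreducible p)
    (hy : p ∉ Set.range (C : K[X] → K[X][Y])) (α : K) : p.map (evalRingHom α) ≠ 0 := by
  intro h0
  have h1 : C (X - C α) ∣ p := by
    rw [C_dvd_iff_dvd_coeff]
    intro j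
    rw [dvd_iff_isRoot]
    have h2 := congrArg (fun q => q.coeff j) h0
    simpa using h2
  obtain ⟨r, hr⟩ := h1
  rcases hp.isUnit_or_isUnit hr with h | h
  · rw [isUnit_C] at h
    exact not_isUnit_X_sub_C α h
  · obtain ⟨s, -, hs⟩ := isUnit_iff.mp h
    apply hy
    refine ⟨(X - C α) * s, ?_⟩
    rw [hr, ← hs, C_mul]

lemma fiber_finite {p : K[X][Y]} (hp : Irreducible p)
    (hy : p ∉ Set.range (C : K[X] → K[X][Y])) (P : ℙ K (Fin 2 → K)) :
    {Q | (P, Q) ∈ curve p}.Finite := by
  classical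
  have key : ∀ q : K[X], q ≠ 0 → (insert (inf K) (pt '' {β | q.eval β = 0})).Finite := by
    intro q hq
    refine Set.Finite.insert _ (Set.Finite.image _ ?_)
    exact (q.roots.toFinset.finite_toSet).subset fun β hβ => by
      rw [Finset.mem_coe, Multiset.mem_toFinset, mem_roots hq]
      exact hβ
  rcases eq_inf_or_pt P with rfl | ⟨α, rfl⟩
  · refine (key (Bivariate.swap p).leadingCoeff ?_).subset ?_
    · rw [leadingCoeff_ne_zero]
      exact (map_ne_zero_iff _ (Bivariate.swap (R := K)).injective).mpr hp.ne_zero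
    · intro Q hQ
      rcases eq_inf_or_pt Q with rfl | ⟨β, rfl⟩
      · exact Set.mem_insert _ _
      · refine Set.mem_insert_of_mem _ ⟨β, ?_, rfl⟩
        rw [Set.mem_ofPred_eq] at hQ ⊢
        rw [← swap_mem] at hQ
        exact pt_inf_mem.mp hQ
  · refine (key _ (fiber_poly_ne_zero hp hy α)).subset ?_
    intro Q hQ
    rcases eq_inf_or_pt Q with rfl | ⟨β, rfl⟩
    · exact Set.mem_insert _ _
    · exact Set.mem_insert_of_mem _ ⟨β, pt_pt_mem.mp hQ, rfl⟩

/-- the values of `x` over which the curve is ramified or has a point with `y = ∞` -/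
def bad (p : K[X][Y]) : Set K :=
  {α | p.leadingCoeff.eval α = 0 ∨ ∃ β, (p.map (evalRingHom α)).eval β = 0 ∧
    (derivative (p.map (evalRingHom α))).eval β = 0}

lemma exists_disc [CharZero K] {p : K[X][Y]} (hp : Irreducible p)
    (hy : p ∉ Set.range (C : K[X] → K[X][Y])) :
    ∃ (d : K[X]) (u w : K[X][Y]), d ≠ 0 ∧ C d = u * p + w * derivative p := by
  have hdeg : p.natDegree ≠ 0 := fun h => hy ⟨p.coeff 0, (eq_C_of_natDegree_le_zero h.le).symm⟩
  set F := FractionRing K[X] with hF
  have hprim : p.IsPrimitive := hp.isPrimitive hdeg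
  have hirr : Irreducible (p.map (algebraMap K[X] F)) :=
    (hprim.irreducible_iff_irreducible_map_fraction_map).mp hp
  have hchar : CharZero F := charZero_of_injective_algebraMap
    (IsFractionRing.injective K[X] F)
  obtain ⟨a, b, hab⟩ := hirr.separable
  obtain ⟨s, hs0, hs⟩ := IsLocalization.integerNormalization_spec (nonZeroDivisors K[X]) a
  obtain ⟨t, ht0, ht⟩ := IsLocalization.integerNormalization_spec (nonZeroDivisors K[X]) b
  refine ⟨s * t, C t * IsLocalization.integerNormalization (nonZeroDivisors K[X]) a,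
    C s * IsLocalization.integerNormalization (nonZeroDivisors K[X]) b, ?_, ?_⟩
  · exact mul_ne_zero (nonZeroDivisors.ne_zero hs0) (nonZeroDivisors.ne_zero ht0)
  · apply Polynomial.map_injective (algebraMap K[X] F) (IsFractionRing.injective K[X] F)
    rw [Polynomial.map_add, Polynomial.map_mul, Polynomial.map_mul, Polynomial.map_mul,
      Polynomial.map_mul, hs, ht, Polynomial.map_C, Polynomial.map_C, Polynomial.map_C,
      ← derivative_map]
    have h1 : ∀ (r : K[X]) (q : F[X]), r • q = C (algebraMap K[X] F r) * q := by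
      intro r q
      rw [← algebraMap_smul F r q, smul_eq_C_mul]
    rw [h1, h1, map_mul, C_mul]
    linear_combination (-(C (algebraMap K[X] F s) * C (algebraMap K[X] F t))) * hab

lemma bad_finite [CharZero K] {p : K[X][Y]} (hp : Irreducible p)
    (hy : p ∉ Set.range (C : K[X] → K[X][Y])) : (bad p).Finite := by
  classical
  obtain ⟨d, u, w, hd, h⟩ := exists_disc hp hy
  have hl : p.leadingCoeff ≠ 0 := leadingCoeff_ne_zero.mpr hp.ne_zero
  refine ((d * p.leadingCoeff).roots.toFinset.finite_toSet).subset fun α hα => ?_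
  rw [Finset.mem_coe, Multiset.mem_toFinset, mem_roots (mul_ne_zero hd hl), IsRoot, eval_mul]
  rcases hα with hα | ⟨β, h1, h2⟩
  · rw [hα, mul_zero]
  · have h3 := congrArg (fun q => (q.map (evalRingHom α)).eval β) h
    simp only [Polynomial.map_C, Polynomial.map_add, Polynomial.map_mul, eval_C, eval_add,
      eval_mul] at h3
    rw [derivative_map] at h2
    rw [h1, h2, mul_zero, mul_zero, add_zero, coe_evalRingHom] at h3
    rw [h3, zero_mul]

section Orbits

variable {p : K[X][Y]}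

lemma Linked.symm {z w : curve p} (h : Linked p z w) : Linked p w z := by
  rcases h with h | h
  · exact Or.inl h.symm
  · exact Or.inr h.symm

lemma self_mem_orbit (z : curve p) : z ∈ orbit p z := Relation.ReflTransGen.refl

lemma orbit_subset {z w : curve p} (h : w ∈ orbit p z) : orbit p w ⊆ orbit p z :=
  fun _ hv => Relation.ReflTransGen.trans h hv

lemma mem_orbit_symm {z w : curve p} (h : w ∈ orbit p z) : z ∈ orbit p w := by
  have h' : Relation.ReflTransGen (Linked p) z w := h
  change Relation.ReflTransGen (Linked p) w z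
  induction h' with
  | refl => exact Relation.ReflTransGen.refl
  | tail _ hl ih => exact Relation.ReflTransGen.head hl.symm (ih (by assumption))

lemma orbit_eq {z w : curve p} (h : w ∈ orbit p z) : orbit p w = orbit p z :=
  Set.Subset.antisymm (orbit_subset h) (orbit_subset (mem_orbit_symm h))

lemma mem_of_linked {z w w' : curve p} (h : w ∈ orbit p z) (hl : Linked p w w') :
    w' ∈ orbit p z := Relation.ReflTransGen.tail h hl

/-- points of the curve over a finite set -/
lemma finite_over (hp : Irreducible p) (hx : p ∉ Set.range (Polynomial.map C : K[X] → K[X][Y]))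
    (hy : p ∉ Set.range (C : K[X] → K[X][Y])) {T T' : Set (ℙ K (Fin 2 → K))} (hT : T.Finite)
    (hT' : T'.Finite) : {z : curve p | z.1.1 ∈ T ∨ z.1.2 ∈ T'}.Finite := by
  have hp' : Irreducible (Bivariate.swap p) :=
    (MulEquiv.irreducible_iff (Bivariate.swap (R := K))).mpr hp
  have hx' : Bivariate.swap p ∉ Set.range (C : K[X] → K[X][Y]) := by
    rintro ⟨r, hr⟩
    apply hx
    exact ⟨r, by rw [← Bivariate.swap_C, hr, Bivariate.swap_swap_apply]⟩
  have h1 : (⋃ P ∈ T, (fun Q => (P, Q)) '' {Q | (P, Q) ∈ curve p}).Finite :=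
    hT.biUnion fun P _ => (fiber_finite hp hy P).image _
  have h2 : (⋃ Q ∈ T', (fun P => (P, Q)) '' {P | (P, Q) ∈ curve p}).Finite := by
    refine hT'.biUnion fun Q _ => Set.Finite.image _ ?_
    refine (fiber_finite hp' hx' Q).subset fun P hP => ?_
    exact swap_mem.mpr hP
  have h3 : (Subtype.val '' {z : curve p | z.1.1 ∈ T ∨ z.1.2 ∈ T'}).Finite := by
    refine (h1.union h2).subset ?_
    rintro _ ⟨⟨⟨P, Q⟩, hz⟩, h | h, rfl⟩
    · left
      rw [Set.mem_iUnion₂]
      exact ⟨P, h, Q, hz, rfl⟩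
    · right
      rw [Set.mem_iUnion₂]
      exact ⟨Q, h, P, hz, rfl⟩
  exact h3.of_finite_image Subtype.val_injective.injOn

/-- An orbit without bad points gives a pair of finite sets. -/
lemma exists_pair {O : Set (curve p)} (hO : O.Finite) {z : curve p} (hz : O = orbit p z)
    (hgood : ∀ w ∈ O, w.1.1 ∉ insert (inf K) (pt '' bad p) ∧
      w.1.2 ∉ insert (inf K) (pt '' bad (Bivariate.swap p))) :
    ∃ A B : Finset K, Pair p A B ∧ A.Nonempty ∧ ∀ α ∈ A, ∃ w ∈ O, w.1.1 = pt α := by
  classical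
  have hinj : Function.Injective (pt : K → ℙ K (Fin 2 → K)) := by
    intro α β h
    unfold pt at h
    rw [Projectivization.mk_eq_mk_iff'] at h
    obtain ⟨a, ha⟩ := h
    have h0 := congrFun ha 0
    have h1 := congrFun ha 1
    simp at h0 h1
    rw [h0, one_mul] at h1
    exact h1.symm
  have hA : {α | ∃ w ∈ O, w.1.1 = pt α}.Finite := by
    refine Set.Finite.of_finite_image (f := pt) ?_ hinj.injOn
    refine (hO.image fun w => w.1.1).subset ?_
    rintro _ ⟨α, ⟨w, hw, h⟩, rfl⟩
    exact ⟨w, hw, h⟩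
  have hB : {β | ∃ w ∈ O, w.1.2 = pt β}.Finite := by
    refine Set.Finite.of_finite_image (f := pt) ?_ hinj.injOn
    refine (hO.image fun w => w.1.2).subset ?_
    rintro _ ⟨β, ⟨w, hw, h⟩, rfl⟩
    exact ⟨w, hw, h⟩
  have hmemA : ∀ α, α ∈ hA.toFinset ↔ ∃ w ∈ O, w.1.1 = pt α := fun α => by simp
  have hmemB : ∀ β, β ∈ hB.toFinset ↔ ∃ w ∈ O, w.1.2 = pt β := fun β => by simp
  have hAbad : ∀ α ∈ hA.toFinset, α ∉ bad p := by
    intro α hα hb
    obtain ⟨w, hw, h⟩ := (hmemA α).mp hα
    exact (hgood w hw).1 (Set.mem_insert_of_mem _ ⟨α, hb, h.symm⟩)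
  have hBbad : ∀ β ∈ hB.toFinset, β ∉ bad (Bivariate.swap p) := by
    intro β hβ hb
    obtain ⟨w, hw, h⟩ := (hmemB β).mp hβ
    exact (hgood w hw).2 (Set.mem_insert_of_mem _ ⟨β, hb, h.symm⟩)
  refine ⟨hA.toFinset, hB.toFinset, ?_, ?_, fun α hα => (hmemA α).mp hα⟩
  · refine ⟨?_, ?_, ?_, ?_, ?_, ?_⟩
    · intro α hα β hβ
      obtain ⟨w, hw, h⟩ := (hmemA α).mp hα
      rw [hmemB]
      refine ⟨⟨(pt α, pt β), pt_pt_mem.mpr hβ⟩, ?_, rfl⟩
      rw [hz] at hw ⊢
      exact mem_of_linked hw (Or.inl h)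
    · intro β hβ α hα
      obtain ⟨w, hw, h⟩ := (hmemB β).mp hβ
      rw [hmemA]
      refine ⟨⟨(pt α, pt β), pt_pt_mem.mpr hα⟩, ?_, rfl⟩
      rw [hz] at hw ⊢
      exact mem_of_linked hw (Or.inr h)
    · intro α hα β hβ h
      exact hAbad α hα (Or.inr ⟨β, hβ, h⟩)
    · intro β hβ α hα h
      exact hBbad β hβ (Or.inr ⟨α, by rw [eval_fiber_swap]; exact hα, h⟩)
    · intro α hα h
      exact hAbad α hα (Or.inl h)
    · intro β hβ h
      exact hBbad β hβ (Or.inl h)
  · have hzO : z ∈ O := by rw [hz]; exact self_mem_orbit z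
    rcases eq_inf_or_pt z.1.1 with h | ⟨α, h⟩
    · exact absurd (by rw [h]; exact Set.mem_insert _ _) (hgood z hzO).1
    · exact ⟨α, (hmemA α).mpr ⟨z, hzO, h⟩⟩

/-- If `F(p)` is trivial, then there are only finitely many finite orbits. -/
theorem finite_orbits [IsAlgClosed K] [CharZero K] (hp : Irreducible p)
    (hx : p ∉ Set.range (Polynomial.map C : K[X] → K[X][Y]))
    (hy : p ∉ Set.range (C : K[X] → K[X][Y])) (htriv : SepTrivial p) :
    {O : Set (curve p) | O.Finite ∧ ∃ z, O = orbit p z}.Finite := by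
  classical
  by_contra hinf
  have hp' : Irreducible (Bivariate.swap p) :=
    (MulEquiv.irreducible_iff (Bivariate.swap (R := K))).mpr hp
  have hx' : Bivariate.swap p ∉ Set.range (C : K[X] → K[X][Y]) := by
    rintro ⟨r, hr⟩
    apply hx
    exact ⟨r, by rw [← Bivariate.swap_C, hr, Bivariate.swap_swap_apply]⟩
  set T : Set (ℙ K (Fin 2 → K)) := insert (inf K) (pt '' bad p) with hT
  set T' : Set (ℙ K (Fin 2 → K)) := insert (inf K) (pt '' bad (Bivariate.swap p)) with hT'
  have hTf : T.Finite := ((bad_finite hp hy).image _).insert _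
  have hTf' : T'.Finite := ((bad_finite hp' hx').image _).insert _
  have hbad := (finite_over hp hx hy hTf hTf').image (orbit p)
  have hinf2 := (Set.Infinite.sdiff (Set.not_finite.mp hinf) hbad).nontrivial
  obtain ⟨O₁, ⟨⟨hf₁, z₁, hz₁⟩, hb₁⟩, O₂, ⟨⟨hf₂, z₂, hz₂⟩, hb₂⟩, hne⟩ := hinf2
  have hgood : ∀ {O : Set (curve p)} {z : curve p}, O = orbit p z →
      O ∉ orbit p '' {z : curve p | z.1.1 ∈ T ∨ z.1.2 ∈ T'} → ∀ w ∈ O, w.1.1 ∉ T ∧ w.1.2 ∉ T' := by
    intro O z hz hb w hw
    by_contra h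
    rw [not_and_or, not_not, not_not] at h
    apply hb
    refine ⟨w, h, ?_⟩
    rw [hz] at hw ⊢
    exact orbit_eq hw
  obtain ⟨A₁, B₁, h₁, hA₁, hw₁⟩ := exists_pair hf₁ hz₁ (hgood hz₁ hb₁)
  obtain ⟨A₂, B₂, h₂, hA₂, hw₂⟩ := exists_pair hf₂ hz₂ (hgood hz₂ hb₂)
  refine not_sepTrivial hp hx hy h₁ h₂ hA₁ hA₂ ?_ htriv
  rw [Finset.disjoint_left]
  intro α h1 h2
  obtain ⟨w₁, hw₁O, e₁⟩ := hw₁ α h1
  obtain ⟨w₂, hw₂O, e₂⟩ := hw₂ α h2
  apply hne
  have h3 : w₂ ∈ orbit p z₁ := by
    rw [hz₁] at hw₁O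
    exact mem_of_linked hw₁O (Or.inl (by rw [e₁, e₂]))
  rw [hz₂] at hw₂O
  rw [hz₁, hz₂, ← orbit_eq h3, orbit_eq hw₂O]

end Orbits

end Pool.Agent.L0h92.Orb
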