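import Mathlib

/-!
# Valuations and plane curves
-/

set_option autoImplicit false

namespace Pool.Agent.L0h92.Orb

open Polynomial Polynomial.Bivariate

variable {K L Γ : Type*} [Field K] [Field L] [Algebra K L] [LinearOrderedCommGroupWithZero Γ]
  {v : Valuation L Γ}

/-- `v` is trivial on `K`. -/
def Over (K : Type*) {L Γ : Type*} [Field K] [Field L] [Algebra K L]
    [LinearOrderedCommGroupWithZero Γ] (v : Valuation L Γ) : Prop :=
  ∀ c : K, v (algebraMap K L c) ≤ 1

lemma Over.eq_one (hv : Over K v) {c : K} (hc : c ≠ 0) : v (algebraMap K L c) = 1 := by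
  apply le_antisymm (hv c)
  have h1 := hv c⁻¹
  rw [map_inv₀, map_inv₀] at h1
  have h2 : v (algebraMap K L c) ≠ 0 := by
    rw [Valuation.ne_zero_iff]
    exact (_root_.map_ne_zero _).mpr hc
  exact (inv_le_one₀ (zero_lt_iff.mpr h2)).mp h1

lemma Over.sub_of_one_lt (hv : Over K v) {x : L} (hx : 1 < v x) (c : K) :
    v (x - algebraMap K L c) = v x :=
  Valuation.map_sub_eq_of_lt_left _ (lt_of_le_of_lt (hv c) hx)

lemma Over.sub_le (hv : Over K v) {x : L} (hx : v x ≤ 1) (c : K) :
    v (x - algebraMap K L c) ≤ 1 := Valuation.map_sub_le _ hx (hv c)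

lemma Over.sub_eq_one (hv : Over K v) {x : L} {c c' : K} (hx : v (x - algebraMap K L c) < 1)
    (h : c' ≠ c) : v (x - algebraMap K L c') = 1 := by
  have h1 : x - algebraMap K L c' = (x - algebraMap K L c) + algebraMap K L (c - c') := by
    rw [map_sub]; ring
  have h2 : v (algebraMap K L (c - c')) = 1 := hv.eq_one (sub_ne_zero.mpr h.symm)
  rw [h1, Valuation.map_add_eq_of_lt_right _ (by rw [h2]; exact hx), h2]

lemma Over.aeval_le (hv : Over K v) {x : L} (hx : v x ≤ 1) (q : K[X]) : v (aeval x q) ≤ 1 := by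
  rw [aeval_eq_sum_range]
  refine Valuation.map_sum_le _ fun i _ => ?_
  rw [Algebra.smul_def, map_mul, map_pow]
  exact mul_le_one' (hv _) (pow_le_one' hx i)

lemma Over.aeval_sub_le (hv : Over K v) {x : L} (hx : v x ≤ 1) (q : K[X]) (α : K) :
    v (aeval x q - algebraMap K L (q.eval α)) ≤ v (x - algebraMap K L α) := by
  obtain ⟨r, hr⟩ := X_sub_C_dvd_sub_C_eval (a := α) (p := q)
  have h1 : aeval x q - algebraMap K L (q.eval α) = (x - algebraMap K L α) * aeval x r := by
    have := congrArg (aeval x) hr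
    rw [map_sub, map_mul, map_sub, aeval_X, aeval_C, aeval_C] at this
    exact this
  rw [h1, map_mul]
  exact mul_le_of_le_one_right' (hv.aeval_le hx r)

lemma Over.aeval_eq_one (hv : Over K v) {x : L} {α : K} (hx : v x ≤ 1)
    (hxα : v (x - algebraMap K L α) < 1) {q : K[X]} (hq : q.eval α ≠ 0) : v (aeval x q) = 1 := by
  have h1 := hv.aeval_sub_le hx q α
  have h2 := hv.eq_one hq
  have h3 : aeval x q = (aeval x q - algebraMap K L (q.eval α)) + algebraMap K L (q.eval α) := by
    ring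
  rw [h3, Valuation.map_add_eq_of_lt_right _ (by rw [h2]; exact lt_of_le_of_lt h1 hxα), h2]

lemma aevalAeval_eq (x y : L) (Q : K[X][Y]) :
    aevalAeval x y Q = ∑ j ∈ Finset.range (Q.natDegree + 1), aeval x (Q.coeff j) * y ^ j := by
  conv_lhs => rw [Q.as_sum_range_C_mul_X_pow]
  rw [map_sum]
  refine Finset.sum_congr rfl fun j _ => ?_
  rw [map_mul, map_pow, aevalAeval_C, aevalAeval_Y]

lemma aeval_map_evalRingHom (y : L) (α : K) (Q : K[X][Y]) :
    aeval y (Q.map (evalRingHom α)) =
      ∑ j ∈ Finset.range (Q.natDegree + 1), algebraMap K L ((Q.coeff j).eval α) * y ^ j := by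
  rw [aeval_def, eval₂_map, eval₂_eq_sum_range]
  rfl

/-- If `y` has a pole and `x` does not, then `lc_y(α) = 0` at the center `α` of `x`. -/
lemma Over.pole (hv : Over K v) {x y : L} (hx : v x ≤ 1) (hy : 1 < v y) {Q : K[X][Y]}
    (hQ : aevalAeval x y Q = 0) {α : K} (hα : Q.leadingCoeff.eval α ≠ 0) :
    v (x - algebraMap K L α) = 1 := by
  by_contra hne
  have hlt : v (x - algebraMap K L α) < 1 := lt_of_le_of_ne (hv.sub_le hx α) hne
  have h1 : v (aeval x Q.leadingCoeff) = 1 := hv.aeval_eq_one hx hlt hα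
  rw [aevalAeval_eq, Finset.sum_range_succ] at hQ
  have h2 : v (aeval x (Q.coeff Q.natDegree) * y ^ Q.natDegree) = v y ^ Q.natDegree := by
    rw [map_mul, map_pow, ← Polynomial.leadingCoeff, h1, one_mul]
  have h3 : v (∑ j ∈ Finset.range Q.natDegree, aeval x (Q.coeff j) * y ^ j) <
      v y ^ Q.natDegree := by
    refine Valuation.map_sum_lt _ (pow_ne_zero _ (ne_of_gt (lt_trans zero_lt_one hy))) ?_
    intro j hj
    rw [map_mul, map_pow]
    calc v (aeval x (Q.coeff j)) * v y ^ j ≤ 1 * v y ^ j := by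
          gcongr
          exact hv.aeval_le hx _
      _ = v y ^ j := one_mul _
      _ < v y ^ Q.natDegree := pow_lt_pow_right₀ hy (Finset.mem_range.mp hj)
  have h4 := Valuation.map_add_eq_of_lt_right (v := v) (x := ∑ j ∈ Finset.range Q.natDegree,
    aeval x (Q.coeff j) * y ^ j) (y := aeval x (Q.coeff Q.natDegree) * y ^ Q.natDegree)
    (by rw [h2]; exact h3)
  rw [hQ, map_zero, h2] at h4
  exact pow_ne_zero _ (ne_of_gt (lt_trans zero_lt_one hy)) h4.symm

lemma Over.fiber_le (hv : Over K v) {x y : L} (hx : v x ≤ 1) (hy : v y ≤ 1) {Q : K[X][Y]}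
    (hQ : aevalAeval x y Q = 0) (α : K) :
    v (aeval y (Q.map (evalRingHom α))) ≤ v (x - algebraMap K L α) := by
  have h1 : aeval y (Q.map (evalRingHom α)) =
      - ∑ j ∈ Finset.range (Q.natDegree + 1),
        (aeval x (Q.coeff j) - algebraMap K L ((Q.coeff j).eval α)) * y ^ j := by
    rw [aeval_map_evalRingHom]
    rw [aevalAeval_eq] at hQ
    simp only [sub_mul]
    rw [Finset.sum_sub_distrib, hQ]
    ring
  rw [h1, Valuation.map_neg]
  refine Valuation.map_sum_le _ fun j _ => ?_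
  rw [map_mul, map_pow]
  calc v (aeval x (Q.coeff j) - algebraMap K L ((Q.coeff j).eval α)) * v y ^ j
      ≤ v (x - algebraMap K L α) * 1 :=
        mul_le_mul' (hv.aeval_sub_le hx _ α) (pow_le_one' hy j)
    _ = _ := mul_one _

lemma Over.exists_root [IsAlgClosed K] (hv : Over K v) {y : L} (hy : v y ≤ 1) {q : K[X]}
    (hq0 : q ≠ 0) (hq : v (aeval y q) < 1) : ∃ β, q.eval β = 0 ∧ v (y - algebraMap K L β) < 1 := by
  by_contra hne
  push Not at hne
  have h1 := (IsAlgClosed.splits q).eq_prod_roots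
  have h2 : v (aeval y q) = 1 := by
    rw [h1, map_mul, aeval_C, map_mul, hv.eq_one (leadingCoeff_ne_zero.mpr hq0), one_mul,
      map_multiset_prod, map_multiset_prod, Multiset.map_map, Multiset.map_map]
    apply Multiset.prod_eq_one
    intro z hz
    obtain ⟨β, hβ, rfl⟩ := Multiset.mem_map.mp hz
    simp only [Function.comp_apply, map_sub, aeval_X, aeval_C]
    exact le_antisymm (hv.sub_le hy β) (hne β (isRoot_of_mem_roots hβ))
  rw [h2] at hq
  exact lt_irrefl _ hq

/-- comparison at a point which is unramified over the first coordinate -/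
lemma Over.compare (hv : Over K v) {x y : L} (hx : v x ≤ 1) (hy : v y ≤ 1) {Q : K[X][Y]}
    (hQ : aevalAeval x y Q = 0) {α β : K} (hyβ : v (y - algebraMap K L β) < 1)
    (h0 : (Q.map (evalRingHom α)).eval β = 0)
    (h1 : (derivative (Q.map (evalRingHom α))).eval β ≠ 0) :
    v (y - algebraMap K L β) ≤ v (x - algebraMap K L α) := by
  obtain ⟨r, hr⟩ := dvd_iff_isRoot.mpr (show IsRoot (Q.map (evalRingHom α)) β from h0)
  have h2 : r.eval β ≠ 0 := by
    rw [hr, derivative_mul] at h1
    simpa using h1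
  have h3 := hv.fiber_le hx hy hQ α
  rw [hr, map_mul, map_mul, map_sub, aeval_X, aeval_C, hv.aeval_eq_one hy hyβ h2, mul_one] at h3
  exact h3

/-- Two finite sets `A`, `B` such that the curve `Q = 0` restricts to a correspondence
between `A` and `B` which is unramified over both, without points at infinity. -/
structure Pair (Q : K[X][Y]) (A B : Finset K) : Prop where
  left : ∀ α ∈ A, ∀ β, (Q.map (evalRingHom α)).eval β = 0 → β ∈ B
  right : ∀ β ∈ B, ∀ α, (Q.map (evalRingHom α)).eval β = 0 → α ∈ A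
  simple : ∀ α ∈ A, ∀ β, (Q.map (evalRingHom α)).eval β = 0 →
    (derivative (Q.map (evalRingHom α))).eval β ≠ 0
  simple' : ∀ β ∈ B, ∀ α, (Q.map (evalRingHom α)).eval β = 0 →
    (derivative ((Bivariate.swap Q).map (evalRingHom β))).eval α ≠ 0
  lead : ∀ α ∈ A, Q.leadingCoeff.eval α ≠ 0
  lead' : ∀ β ∈ B, (Bivariate.swap Q).leadingCoeff.eval β ≠ 0

lemma eval_fiber (Q : K[X][Y]) (α β : K) :
    (Q.map (evalRingHom α)).eval β = aevalAeval α β Q := by
  rw [map_evalRingHom_eval, coe_aevalAeval_eq_evalEval]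

lemma eval_fiber_swap (Q : K[X][Y]) (α β : K) :
    ((Bivariate.swap Q).map (evalRingHom β)).eval α = (Q.map (evalRingHom α)).eval β := by
  rw [eval_fiber, eval_fiber, Bivariate.aevalAeval_swap]

lemma Pair.swap {Q : K[X][Y]} {A B : Finset K} (h : Pair Q A B) :
    Pair (Bivariate.swap Q) B A where
  left := fun β hβ α hα => h.right β hβ α (by rwa [eval_fiber_swap] at hα)
  right := fun α hα β hβ => h.left α hα β (by rwa [eval_fiber_swap] at hβ)
  simple := fun β hβ α hα => h.simple' β hβ α (by rwa [eval_fiber_swap] at hα)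
  simple' := fun α hα β hβ => by
    rw [Bivariate.swap_swap_apply]
    exact h.simple α hα β (by rwa [eval_fiber_swap] at hβ)
  lead := h.lead'
  lead' := fun α hα => by
    rw [Bivariate.swap_swap_apply]
    exact h.lead α hα

lemma fiber_ne_zero {Q : K[X][Y]} {α : K} (h : Q.leadingCoeff.eval α ≠ 0) :
    Q.map (evalRingHom α) ≠ 0 := by
  intro h0
  have h1 := congrArg (fun q => q.coeff Q.natDegree) h0
  simp only [coeff_map, coeff_zero, coe_evalRingHom] at h1
  exact h h1

lemma natDegree_fiber {Q : K[X][Y]} {α : K} (h : Q.leadingCoeff.eval α ≠ 0) :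
    (Q.map (evalRingHom α)).natDegree = Q.natDegree :=
  natDegree_map_of_leadingCoeff_ne_zero _ h

/-- the product of the `x - α` -/
noncomputable def prodAt (x : L) (A : Finset K) : L := ∏ α ∈ A, (x - algebraMap K L α)

lemma Over.prodAt_eq_one (hv : Over K v) {x : L} (hx : v x ≤ 1) {A : Finset K}
    (h : ∀ α ∈ A, ¬ v (x - algebraMap K L α) < 1) : v (prodAt x A) = 1 := by
  unfold prodAt
  rw [map_prod]
  exact Finset.prod_eq_one fun α hα => le_antisymm (hv.sub_le hx α) (not_lt.mp (h α hα))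

lemma Over.prodAt_eq (hv : Over K v) {x : L} {A : Finset K} {α : K}
    (hα : α ∈ A) (h : v (x - algebraMap K L α) < 1) :
    v (prodAt x A) = v (x - algebraMap K L α) := by
  unfold prodAt
  rw [map_prod, Finset.prod_eq_single_of_mem α hα]
  intro α' _ hne
  exact hv.sub_eq_one h hne

lemma Over.prodAt_of_one_lt (hv : Over K v) {x : L} (hx : 1 < v x) (A : Finset K) :
    v (prodAt x A) = v x ^ A.card := by
  unfold prodAt
  rw [map_prod, Finset.prod_congr rfl fun α _ => hv.sub_of_one_lt hx α, Finset.prod_const]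

lemma Over.pair_eq [IsAlgClosed K] (hv : Over K v) {x y : L} (hx : v x ≤ 1) (hy : v y ≤ 1)
    {Q : K[X][Y]} (hQ : aevalAeval x y Q = 0) {A B : Finset K} (h : Pair Q A B) :
    v (prodAt x A) = v (prodAt y B) := by
  have hQ' : aevalAeval y x (Bivariate.swap Q) = 0 := by rw [Bivariate.aevalAeval_swap, hQ]
  by_cases hA : ∃ α ∈ A, v (x - algebraMap K L α) < 1
  · obtain ⟨α, hα, hlt⟩ := hA
    obtain ⟨β, hβ0, hβ⟩ := hv.exists_root hy (fiber_ne_zero (h.lead α hα))
      (lt_of_le_of_lt (hv.fiber_le hx hy hQ α) hlt)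
    have hβB := h.left α hα β hβ0
    rw [hv.prodAt_eq hα hlt, hv.prodAt_eq hβB hβ]
    apply le_antisymm
    · exact hv.compare hy hx hQ' hlt (by rw [eval_fiber_swap]; exact hβ0)
        (h.simple' β hβB α hβ0)
    · exact hv.compare hx hy hQ hβ hβ0 (h.simple α hα β hβ0)
  · push Not at hA
    rw [hv.prodAt_eq_one hx fun α hα => not_lt.mpr (hA α hα), hv.prodAt_eq_one hy]
    intro β hβ hlt
    obtain ⟨α, hα0, hα⟩ := hv.exists_root hx (fiber_ne_zero (h.lead' β hβ))
      (lt_of_le_of_lt (hv.fiber_le hy hx hQ' β) hlt)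
    rw [eval_fiber_swap] at hα0
    exact absurd hα (not_lt.mpr (hA α (h.right β hβ α hα0)))

/-- The main identity of valuations. -/
lemma Over.main [IsAlgClosed K] (hv : Over K v) {x y : L} {Q : K[X][Y]}
    (hQ : aevalAeval x y Q = 0) {A₁ B₁ A₂ B₂ : Finset K} (h₁ : Pair Q A₁ B₁) (h₂ : Pair Q A₂ B₂)
    {a b : ℕ} (hc₁ : A₁.card * b = B₁.card * a) (hc₂ : A₂.card * b = B₂.card * a) :
    v (prodAt x A₁ ^ (A₂.card * b) * prodAt y B₂ ^ (B₁.card * a)) =
      v (prodAt x A₂ ^ (A₁.card * b) * prodAt y B₁ ^ (B₂.card * a)) := by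
  have hQ' : aevalAeval y x (Bivariate.swap Q) = 0 := by rw [Bivariate.aevalAeval_swap, hQ]
  rw [map_mul, map_mul, map_pow, map_pow, map_pow, map_pow]
  rcases le_or_gt (v x) 1 with hx | hx <;> rcases le_or_gt (v y) 1 with hy | hy
  · rw [hv.pair_eq hx hy hQ h₁, hv.pair_eq hx hy hQ h₂, hc₁, hc₂, mul_comm]
  · have h3 : ∀ {A B : Finset K}, Pair Q A B → v (prodAt x A) = 1 := fun h =>
      hv.prodAt_eq_one hx fun α hα => not_lt.mpr (hv.pole hx hy hQ (h.lead α hα)).ge
    rw [h3 h₁, h3 h₂, hv.prodAt_of_one_lt hy, hv.prodAt_of_one_lt hy, one_pow, one_pow, one_mul,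
      one_mul, ← pow_mul, ← pow_mul]
    congr 1
    ring
  · have h3 : ∀ {A B : Finset K}, Pair Q A B → v (prodAt y B) = 1 := fun h =>
      hv.prodAt_eq_one hy fun β hβ => not_lt.mpr (hv.pole hy hx hQ' (h.lead' β hβ)).ge
    rw [h3 h₁, h3 h₂, hv.prodAt_of_one_lt hx, hv.prodAt_of_one_lt hx, one_pow, one_pow, mul_one,
      mul_one, ← pow_mul, ← pow_mul]
    congr 1
    ring
  · rw [hv.prodAt_of_one_lt hy, hv.prodAt_of_one_lt hy, hv.prodAt_of_one_lt hx,
      hv.prodAt_of_one_lt hx, ← pow_mul, ← pow_mul, ← pow_mul, ← pow_mul]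
    congr 2
    · ring
    · ring

/-- An element of `L` with trivial valuation at all places of `L` over `K` is constant. -/
lemma exists_const [IsAlgClosed K] {w : L}
    (hw : ∀ V : ValuationSubring L, Over K V.valuation → V.valuation w ≤ 1) :
    ∃ c : K, w = algebraMap K L c := by
  by_contra hne
  push Not at hne
  set R : Subring L := (algebraMap K L).range with hR
  have hwR : w ∉ R := by
    rintro ⟨c, hc⟩
    exact hne c hc.symm
  have hcl : IsIntegrallyClosedIn R L := by
    rw [isIntegrallyClosedIn_iff]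
    refine ⟨Subtype.val_injective, fun {z} hz => ?_⟩
    have hz' : IsIntegral K z := by
      obtain ⟨q, hq, hq0⟩ := hz
      have hsurj : Function.Surjective (algebraMap K L).rangeRestrict :=
        (algebraMap K L).rangeRestrict_surjective
      obtain ⟨q', hq', hdeg, hmon⟩ := lifts_and_natDegree_eq_and_monic
        (f := (algebraMap K L).rangeRestrict) (p := q) (by
          rw [lifts_iff_coeff_lifts]
          intro n
          obtain ⟨c, hc⟩ := hsurj (q.coeff n)
          exact ⟨c, hc⟩) hq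
      refine ⟨q', hmon, ?_⟩
      rw [← hq', eval₂_map] at hq0
      exact hq0
    have hdeg := IsAlgClosed.degree_eq_one_of_irreducible K (minpoly.irreducible hz')
    obtain ⟨c, hc⟩ := minpoly.mem_range_of_degree_eq_one K z hdeg
    exact ⟨⟨z, ⟨c, hc⟩⟩, rfl⟩
  obtain ⟨V, hV, hwV⟩ := Subring.exists_le_valuationSubring_of_isIntegrallyClosedIn hwR
  apply hwV
  rw [← ValuationSubring.valuation_le_one_iff]
  refine hw V fun c => ?_
  rw [ValuationSubring.valuation_le_one_iff]
  exact hV ⟨c, rfl⟩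

end Pool.Agent.L0h92.Orb
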